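import Pool.Agent.Helper71.MA.Sys

open Complex Filter Topology MeasureTheory Set
open Pool.Agent.Helper57.Zeta
open Pool.Agent.Helper71.MR (kr kr_pos kr_int Aw Aw_neg dk_kr dk_Aw Dk wt wt_pos wt_cont gt gt_nonneg gt_zero gt_cont gt_le_one
  gt_int_pos gt_integrable gtw_ne zero_re norm_cexp_mul xi_half_neg rel_dense Gr extract dk_int split_eq uniq ker_kr
  Np Np_fast lap lap_at lap_Np half_bd)

namespace Pool.Agent.Helper71.MA

variable {F : ℝ → ℝ} {A : ℝ} {c : ℂ → ℂ}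

theorem coef_bd (hS : Sys F A c) {w : ℂ} (hw : xi (1 / 2 + w) = 0) (hc : c w ≠ 0) : ∃ C : ℝ, 0 ≤ C ∧ ∀ τ : ℝ,
    Real.exp (w.re * τ) ≤ C * ∫ v : ℝ, |F (τ + v)| * wt v := by
  obtain ⟨C, hC⟩ := dk_Aw hw
  have hC0 := hC.nonneg
  have hc := norm_pos_iff.mpr hc
  refine ⟨C / ‖c w‖, by positivity, fun τ => ?_⟩
  have h := hS.aw w hw τ
  have h1 : ‖∫ s : ℝ, (F (τ + s) : ℂ) * Aw kr w s‖ ≤ ∫ v : ℝ, C * (|F (τ + v)| * wt v) := by
    apply norm_integral_le_of_norm_le ((wt_int hS τ).const_mul C)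
    filter_upwards with s
    rw [norm_mul, Complex.norm_real, Real.norm_eq_abs]
    have h2 : ‖Aw kr w s‖ ≤ C * wt s := by
      refine (hC.bd s).trans (mul_le_mul_of_nonneg_left ?_ hC0)
      unfold wt
      apply Real.exp_le_exp.mpr
      have := Real.exp_pos (2 * |s|)
      linarith
    have h3 := mul_le_mul_of_nonneg_left h2 (abs_nonneg (F (τ + s)))
    linarith
  rw [h, norm_mul, norm_cexp_mul, integral_const_mul] at h1
  rw [div_mul_eq_mul_div, le_div_iff₀ hc]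
  exact h1

/-- nonvanishing of the coefficients on the side needed for the direction ς -/
def Ne (c : ℂ → ℂ) (ς : ℝ) : Prop := ∀ w, xi (1 / 2 + w) = 0 → 0 ≤ ς * w.re → c w ≠ 0

theorem big_re (hS : Sys F A c) {σ K C4 ς : ℝ} (hς : ς = 1 ∨ ς = -1) (hne : Ne c ς) (hB : Big F σ K C4 ς)
    {w : ℂ} (hw : xi (1 / 2 + w) = 0) : w.re = 0 := by
  -- it suffices to exclude zeros with positive ς * re
  have key : ∀ w : ℂ, xi (1 / 2 + w) = 0 → ¬ 0 < ς * w.re := by
    intro w hw hpos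
    obtain ⟨C1, h10, h1⟩ := coef_bd hS hw (hne w hw hpos.le)
    obtain ⟨p, hp⟩ := hB 0 ((C1 * C4) / (ς * w.re))
    obtain ⟨e1, _, e3⟩ := hp p ⟨le_rfl, by linarith⟩
    rw [div_le_iff₀ hpos] at e1
    have f1 := (h1 p).trans (mul_le_mul_of_nonneg_left e3 h10)
    have hsq : ς * ς = 1 := by rcases hς with h | h <;> rw [h] <;> norm_num
    have f2 : w.re * p = (ς * p) * (ς * w.re) := by linear_combination (-(w.re * p)) * hsq
    have f4 := Real.add_one_le_exp (w.re * p)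
    linarith
  rcases lt_trichotomy (ς * w.re) 0 with h | h | h
  · exfalso
    apply key (-w) (xi_half_neg hw)
    rw [Complex.neg_re]; linarith
  · rcases hς with h' | h' <;> rw [h'] at h <;> linarith
  · exact absurd h (key w hw)

/-- centres of good windows that are return times -/
theorem good_times (hS : Sys F A c) {σ K C4 ς : ℝ} (hς : ς = 1 ∨ ς = -1) (hne : Ne c ς) (hB : Big F σ K C4 ς) :
    ∃ τ : ℕ → ℝ,
    (∀ n : ℕ, ∀ t : ℝ, |t| ≤ n → σ * F (τ n + t) ≤ K ∧ ∫ v : ℝ, |F (τ n + t + v)| * wt v ≤ C4) ∧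
    (∀ w : ℂ, xi (1 / 2 + w) = 0 → Tendsto (fun n => cexp (w * τ n)) atTop (𝓝 1)) := by
  classical
  have hfin : ∀ n : ℕ, {w : ℂ | xi (1 / 2 + w) = 0 ∧ |w.im| ≤ n}.Finite := by
    intro n
    have h := (zsym_finite (n : ℝ)).preimage (f := fun w : ℂ => 1 / 2 + w) (by
      intro a _ b _ hab
      simpa using hab)
    refine h.subset ?_
    intro w hw
    refine ⟨hw.1, ?_⟩
    have : (1 / 2 + w).im = w.im := by simp
    rw [this]
    exact hw.2
  have key : ∀ n : ℕ, ∃ τ : ℝ,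
      (∀ t : ℝ, |t| ≤ n → σ * F (τ + t) ≤ K ∧ ∫ v : ℝ, |F (τ + t + v)| * wt v ≤ C4) ∧
      (∀ w : ℂ, xi (1 / 2 + w) = 0 → |w.im| ≤ n → ‖cexp (w * τ) - 1‖ < 1 / ((n : ℝ) + 1)) := by
    intro n
    obtain ⟨W, hW0, hWr⟩ := rel_dense (hfin n).toFinset (by
      intro w hw
      rw [Set.Finite.mem_toFinset] at hw
      exact big_re hS hς hne hB hw.1) (δ := 1 / ((n : ℝ) + 1)) (by positivity)
    obtain ⟨p, hp2⟩ := hB (W + 2 * n) 0
    obtain ⟨τ, hτ, hτ2⟩ := hWr (p + n)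
    refine ⟨τ, ?_, ?_⟩
    · intro t ht
      have h1 := abs_le.mp ht
      have h2 := hp2 (τ + t) ⟨by linarith [hτ.1, h1.1], by linarith [hτ.2, h1.2]⟩
      exact h2.2
    · intro w hw hwi
      apply hτ2
      rw [Set.Finite.mem_toFinset]
      exact ⟨hw, hwi⟩
  choose τ h2 h3 using key
  refine ⟨τ, h2, ?_⟩
  intro w hw
  rw [tendsto_iff_norm_sub_tendsto_zero]
  apply squeeze_zero' (g := fun n : ℕ => 1 / ((n : ℝ) + 1))
  · exact Eventually.of_forall fun n => norm_nonneg _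
  · obtain ⟨N, hN⟩ := exists_nat_ge |w.im|
    filter_upwards [eventually_ge_atTop N] with n hn
    have : |w.im| ≤ (n : ℝ) := hN.trans (by exact_mod_cast hn)
    exact (h3 n w hw this).le
  · exact tendsto_one_div_add_atTop_nhds_zero_nat

/-- the limit profile -/
theorem limit_exists (hS : Sys F A c) {σ K C4 ς : ℝ} (hς : ς = 1 ∨ ς = -1) (hne : Ne c ς) (hC4 : 0 ≤ C4)
    (hBig : Big F σ K C4 ς) {δ : ℝ} (hδ : δ ≤ 1) :
    ∃ G : ℝ → ℝ, ∃ B : ℝ, Gr G B 0 ∧ (∀ t, ∫ s : ℝ, (G (t + s) : ℂ) * (kr s : ℂ) = 0) ∧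
      (∀ w, xi (1 / 2 + w) = 0 → ∫ s : ℝ, (G s : ℂ) * Aw kr w s =
        c w * ∫ u : ℝ, (gt δ u : ℂ) * cexp (w * u)) ∧
      (∀ t, σ * G t ≤ K * ∫ u : ℝ, gt δ u) := by
  obtain ⟨τ, hgood, hret⟩ := good_times hS hς hne hBig
  set B : ℝ := Real.exp (Real.exp (2 * (1 + 1)) / 10) * C4 with hB
  have hB0 : 0 ≤ B := mul_nonneg (Real.exp_pos _).le hC4
  have hbdn : ∀ n : ℕ, ∀ t : ℝ, |t| ≤ n → |sm F δ (τ n + t)| ≤ B := by
    intro n t ht
    have h := sm_bd_wt hS hδ (t := 0) (R := 1) (by simp) (τ n + t)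
    rw [add_zero] at h
    exact h.trans (mul_le_mul_of_nonneg_left (hgood n t ht).2 (Real.exp_pos _).le)
  have hlipn : ∀ n : ℕ, ∀ t t' : ℝ, |t| ≤ n → |t - t'| ≤ 1 →
      |sm F δ (τ n + t) - sm F δ (τ n + t')| ≤ B * |t - t'| := by
    intro n t t' ht htt
    have h := sm_lip_wt hS hδ (t := 0) (t' := t' - t) (R := 1) (by simp) (by rwa [abs_sub_comm]) (τ n + t)
    rw [add_zero, show τ n + t + (t' - t) = τ n + t' by ring, zero_sub, neg_sub] at h
    refine h.trans ?_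
    rw [mul_comm]
    apply mul_le_mul_of_nonneg_right _ (abs_nonneg _)
    exact mul_le_mul_of_nonneg_left (hgood n t ht).2 (Real.exp_pos _).le
  obtain ⟨G, φ, hφ, hG⟩ := extract (fun n t => sm F δ (τ n + t)) B hbdn hlipn
  have hlarge : ∀ t : ℝ, ∀ᶠ n in atTop, |t| ≤ (φ n : ℝ) := by
    intro t
    obtain ⟨N, hN⟩ := exists_nat_ge |t|
    filter_upwards [eventually_ge_atTop N] with n hn
    exact hN.trans (by exact_mod_cast hn.trans (hφ.id_le n))
  have hGb : ∀ t, |G t| ≤ B := by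
    intro t
    apply le_of_tendsto (hG t).abs
    filter_upwards [hlarge t] with n hn
    exact hbdn _ t hn
  have hGl : ∀ t t' : ℝ, |t - t'| ≤ 1 → |G t - G t'| ≤ B * |t - t'| := by
    intro t t' htt
    apply le_of_tendsto ((hG t).sub (hG t')).abs
    filter_upwards [hlarge t] with n hn
    exact hlipn _ t t' hn htt
  have hGc : Continuous G := by
    rw [continuous_iff_continuousAt]
    intro t₀
    rw [Metric.continuousAt_iff]
    intro ε hε
    refine ⟨min 1 (ε / (B + 1)), by positivity, ?_⟩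
    intro x hx
    rw [Real.dist_eq] at hx ⊢
    have h1 := hGl x t₀ ((hx.trans_le (min_le_left _ _)).le)
    refine h1.trans_lt ?_
    have h2 := hx.trans_le (min_le_right 1 (ε / (B + 1)))
    rw [lt_div_iff₀ (by positivity)] at h2
    nlinarith [abs_nonneg (x - t₀)]
  have hw2 : ∀ n : ℕ, ∀ t : ℝ, |t| ≤ n → ∫ v : ℝ, |F (τ n + t + v)| * wt v ≤ C4 :=
    fun n t ht => (hgood n t ht).2
  refine ⟨G, B, ⟨hGc, fun t => ?_⟩, ?_, ?_, ?_⟩
  · simpa using hGb t
  · intro t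
    obtain ⟨Ck, hCk⟩ := dk_kr
    have h := trans_lim hS hδ hC4 hw2 hφ hG hCk t
    have h2 : (fun n => ∫ s : ℝ, (sm F δ (τ (φ n) + (t + s)) : ℂ) * (kr s : ℂ)) = fun _ => (0:ℂ) := by
      ext n
      rw [← sm_kr hS hδ (τ (φ n) + t)]
      apply integral_congr_ae
      filter_upwards with s
      rw [show τ (φ n) + t + s = τ (φ n) + (t + s) by ring]
    rw [h2] at h
    exact tendsto_nhds_unique h tendsto_const_nhds |>.symm ▸ rfl
  · intro w hw
    obtain ⟨C, hC⟩ := dk_Aw hw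
    have h := trans_lim hS hδ hC4 hw2 hφ hG hC 0
    simp only [zero_add] at h
    have h2 : (fun n => ∫ s : ℝ, (sm F δ (τ (φ n) + s) : ℂ) * Aw kr w s) =
        fun n => cexp (w * τ (φ n)) * (c w * ∫ u : ℝ, (gt δ u : ℂ) * cexp (w * u)) := by
      ext n
      rw [sm_Aw hS hδ hw]
    rw [h2] at h
    have h3 := ((hret w hw).comp hφ.tendsto_atTop).mul_const (c w * ∫ u : ℝ, (gt δ u : ℂ) * cexp (w * u))
    rw [one_mul] at h3
    exact tendsto_nhds_unique h h3
  · intro t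
    apply le_of_tendsto ((hG t).const_mul σ)
    filter_upwards [hlarge (|t| + 1)] with n hn
    rw [abs_of_nonneg (by positivity)] at hn
    rw [sm, ← integral_const_mul, ← integral_const_mul]
    have i1 : Integrable (fun u : ℝ => σ * (F (τ (φ n) + t + u) * gt δ u)) := by
      have := (gt_int hS hδ (τ (φ n) + t) 0).const_mul σ
      simpa using this
    apply integral_mono i1 ((gt_integrable δ).const_mul _)
    intro u
    show σ * (F (τ (φ n) + t + u) * gt δ u) ≤ K * gt δ u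
    rcases le_or_gt u 0 with h | h
    · rw [gt_zero (Or.inl h)]; simp
    rcases le_or_gt δ u with h' | h'
    · rw [gt_zero (Or.inr h')]; simp
    rw [← mul_assoc]
    apply mul_le_mul_of_nonneg_right _ (gt_nonneg _ _)
    have hu : |t + u| ≤ (φ n : ℝ) := by
      refine (abs_add_le _ _).trans ?_
      rw [abs_of_pos h]
      linarith
    have e1 := (hgood (φ n) (t + u) hu).1
    rwa [show τ (φ n) + (t + u) = τ (φ n) + t + u by ring] at e1

theorem big_simple (hS : Sys F A c) {σ K C4 ς : ℝ} (hς : ς = 1 ∨ ς = -1) (hne : Ne c ς) (hC4 : 0 ≤ C4)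
    (hBig : Big F σ K C4 ς) (w : ℂ) (hw : xi (1 / 2 + w) = 0) : deriv xi (1 / 2 + w) ≠ 0 := by
  intro hd
  have hre := big_re hS hς hne hBig hw
  set δ : ℝ := 1 / (|w.im| + 1) with hδ
  have hδ0 : 0 < δ := by positivity
  have hδ1 : δ ≤ 1 := by
    rw [hδ, div_le_one (by positivity)]
    linarith [abs_nonneg w.im]
  have hδw : |w.im| * δ ≤ 1 := by
    rw [hδ, mul_one_div, div_le_one (by positivity)]
    linarith
  obtain ⟨G, B, hG, hGk, hGA, _⟩ := limit_exists hS hς hne hC4 hBig hδ1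
  have hB0 := hG.nonneg
  have hconv : ∀ t, ∫ s : ℝ, (G s : ℂ) * (kr (s - t) : ℂ) = 0 := by
    intro t
    rw [← hGk t, ← integral_add_left_eq_self (fun s : ℝ => (G s : ℂ) * (kr (s - t) : ℂ)) t]
    apply integral_congr_ae
    filter_upwards with s
    rw [show t + s - t = s by ring]
  have e1 : lap (Np kr G) w = c w * ∫ u : ℝ, (gt δ u : ℂ) * cexp (w * u) := by
    rw [lap_at hG le_rfl ker_kr hconv w, ← split_eq hG (by norm_num) hw, hGA w hw]
  have hne2 : lap (Np kr G) w ≠ 0 := by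
    rw [e1]
    exact mul_ne_zero (hne w hw (by rw [hre, mul_zero])) (gtw_ne hδ0 hre hδw)
  apply hne2
  -- the limit along w + x
  have hfast := Np_fast hG le_rfl ker_kr hconv
  have hcont := hfast.lap_diff.continuous
  have hpath : Tendsto (fun x : ℝ => w + (x : ℂ)) (𝓝[>] 0) (𝓝 w) := by
    have h : Tendsto (fun x : ℝ => w + (x : ℂ)) (𝓝 0) (𝓝 (w + ((0:ℝ) : ℂ))) := by
      apply Continuous.tendsto
      fun_prop
    rw [Complex.ofReal_zero, add_zero] at h
    exact h.mono_left nhdsWithin_le_nhds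
  have l1 : Tendsto (fun x : ℝ => lap (Np kr G) (w + (x : ℂ))) (𝓝[>] 0) (𝓝 (lap (Np kr G) w)) :=
    (hcont.tendsto w).comp hpath
  have l2 : Tendsto (fun x : ℝ => lap (Np kr G) (w + (x : ℂ))) (𝓝[>] 0) (𝓝 0) := by
    have hder : HasDerivAt xi 0 (1 / 2 + w) := by
      rw [← hd]; exact (differentiable_xi _).hasDerivAt
    have h3 := hder.tendsto_slope_zero
    have h4 : Tendsto (fun x : ℝ => (x : ℂ)) (𝓝[>] 0) (𝓝[≠] 0) := by
      apply tendsto_nhdsWithin_of_tendsto_nhds_of_eventually_within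
      · have : Tendsto (fun x : ℝ => (x : ℂ)) (𝓝 0) (𝓝 ((0:ℝ) : ℂ)) := Complex.continuous_ofReal.tendsto 0
        rw [Complex.ofReal_zero] at this
        exact this.mono_left nhdsWithin_le_nhds
      · filter_upwards [self_mem_nhdsWithin] with x hx
        have hx0 : (0:ℝ) < x := hx
        simpa using hx0.ne'
    have h5 := (h3.comp h4).norm.const_mul (B / 2)
    rw [norm_zero, mul_zero] at h5
    apply squeeze_zero_norm' _ h5
    filter_upwards [self_mem_nhdsWithin] with x hx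
    have hx0 : (0:ℝ) < x := hx
    have hz : (0:ℝ) < (w + (x : ℂ)).re := by simp [hre, hx0]
    rw [lap_Np hG ker_kr hz]
    have h6 := half_bd hG hz
    have h7 : (w + (x : ℂ)).re = x := by simp [hre]
    rw [h7, sub_zero] at h6
    simp only [Function.comp_apply, hw, sub_zero]
    rw [norm_mul, norm_mul, norm_smul, norm_inv, Complex.norm_real, Real.norm_of_nonneg hx0.le]
    have h8 : ‖(1 / 2 : ℂ)‖ = 1 / 2 := by norm_num
    rw [h8, show (1 / 2 : ℂ) + (w + x) = 1 / 2 + w + x by ring]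
    calc ‖∫ s in Ioi (0:ℝ), (G s : ℂ) * cexp (-((w + (x : ℂ)) * s))‖ * (1 / 2 * ‖xi (1 / 2 + w + x)‖)
        ≤ (B / x) * (1 / 2 * ‖xi (1 / 2 + w + x)‖) :=
          mul_le_mul_of_nonneg_right h6 (by positivity)
      _ = _ := by field_simp
  exact tendsto_nhds_unique l1 l2

theorem sm_le (hS : Sys F A c) {σ K C4 ς : ℝ} (hς : ς = 1 ∨ ς = -1) (hne : Ne c ς) (hC4 : 0 ≤ C4)
    (hBig : Big F σ K C4 ς) {δ : ℝ} (hδ : δ ≤ 1) (t : ℝ) :
    σ * sm F δ t ≤ K * ∫ u : ℝ, gt δ u := by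
  obtain ⟨G, B, hG, hGkr, hGAw, hGle⟩ := limit_exists hS hς hne hC4 hBig hδ
  obtain ⟨A', hA⟩ := sm_gr hS hδ
  obtain ⟨Ck, hCk⟩ := dk_kr
  have hB0 := hG.nonneg
  have hDgr : Gr (fun t => G t - sm F δ t) (B + A') (3 / 4) := by
    refine ⟨hG.cont.sub (sm_cont hS hδ), fun t => ?_⟩
    have h1 := abs_sub (G t) (sm F δ t)
    have h2 := hG.bd t
    have h3 := hA.bd t
    have h4 : 1 ≤ Real.exp (3 / 4 * |t|) := Real.one_le_exp (by positivity)
    rw [zero_mul, Real.exp_zero, mul_one] at h2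
    rw [add_mul]
    nlinarith
  have hD0 : ∀ t, (fun t => G t - sm F δ t) t = 0 := by
    apply uniq hDgr (by norm_num) (by norm_num) ker_kr (big_simple hS hς hne hC4 hBig)
    · intro t
      have e1 : ∫ s : ℝ, ((G s - sm F δ s : ℝ) : ℂ) * (kr (s - t) : ℂ) =
          ∫ s : ℝ, (((G (t + s) : ℂ) * (kr s : ℂ)) - (sm F δ (t + s) : ℂ) * (kr s : ℂ)) := by
        rw [← integral_add_left_eq_self (fun s : ℝ => ((G s - sm F δ s : ℝ) : ℂ) * (kr (s - t) : ℂ)) t]
        apply integral_congr_ae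
        filter_upwards with s
        rw [show t + s - t = s by ring]
        push_cast; ring
      rw [e1, integral_sub (dk_int hG (by norm_num) hCk t) (dk_int hA le_rfl hCk t), hGkr, sm_kr hS hδ, sub_zero]
    · intro w hw
      obtain ⟨C, hC⟩ := dk_Aw hw
      have i1 := dk_int hG (by norm_num) hC 0
      have i2 := dk_int hA le_rfl hC 0
      have e3 := sm_Aw hS hδ hw 0
      simp only [zero_add] at i1 i2 e3
      rw [show w * ((0:ℝ) : ℂ) = 0 by simp, Complex.exp_zero, one_mul] at e3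
      have e1 : ∫ s : ℝ, ((G s - sm F δ s : ℝ) : ℂ) * Aw kr w s =
          ∫ s : ℝ, (((G s : ℂ) * Aw kr w s) - (sm F δ s : ℂ) * Aw kr w s) := by
        apply integral_congr_ae
        filter_upwards with s
        push_cast; ring
      have e2 : ∫ s : ℝ, ((G s - sm F δ s : ℝ) : ℂ) * Aw kr w s = 0 := by
        rw [e1, integral_sub i1 i2, hGAw w hw, e3, sub_self]
      have e4 := split_eq hDgr le_rfl hw
      rw [e2] at e4
      exact (sub_eq_zero.mp e4.symm)
  have hGt : G t = sm F δ t := by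
    have := hD0 t
    simp only at this
    linarith
  rw [← hGt]
  exact hGle t

theorem le_of_big (hS : Sys F A c) {σ K C4 ς : ℝ} (hς : ς = 1 ∨ ς = -1) (hne : Ne c ς) (hC4 : 0 ≤ C4)
    (hBig : Big F σ K C4 ς) (t₀ : ℝ) : σ * F t₀ ≤ K := by
  by_contra hcon
  push Not at hcon
  set ε : ℝ := σ * F t₀ - K with hε
  have hε0 : 0 < ε := by rw [hε]; linarith
  have h1 : ∀ᶠ t in 𝓝[≥] t₀, K + ε / 2 < σ * F t := by
    have := (hS.right t₀).const_mul σ
    exact this.eventually (lt_mem_nhds (by rw [hε]; linarith))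
  rw [eventually_nhdsWithin_iff, Metric.eventually_nhds_iff] at h1
  obtain ⟨η, hη, h2⟩ := h1
  set δ : ℝ := min 1 (η / 2) with hδ
  have hδ0 : 0 < δ := by positivity
  have hδ1 : δ ≤ 1 := min_le_left _ _
  have hδη : δ < η := by
    have := min_le_right 1 (η / 2)
    rw [hδ]; linarith
  have h3 := sm_le hS hς hne hC4 hBig hδ1 t₀
  have hI := gt_int_pos hδ0
  have h4 : (K + ε / 2) * ∫ u : ℝ, gt δ u ≤ σ * sm F δ t₀ := by
    unfold sm
    rw [← integral_const_mul, ← integral_const_mul]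
    have i1 : Integrable (fun u : ℝ => σ * (F (t₀ + u) * gt δ u)) := by
      have := (gt_int hS hδ1 t₀ 0).const_mul σ
      simpa using this
    apply integral_mono ((gt_integrable δ).const_mul _) i1
    intro u
    show (K + ε / 2) * gt δ u ≤ σ * (F (t₀ + u) * gt δ u)
    rcases le_or_gt u 0 with h | h
    · rw [gt_zero (Or.inl h)]; simp
    rcases le_or_gt δ u with h' | h'
    · rw [gt_zero (Or.inr h')]; simp
    rw [← mul_assoc]
    apply mul_le_mul_of_nonneg_right _ (gt_nonneg _ _)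
    apply (h2 _ _).le
    · rw [Real.dist_eq, show t₀ + u - t₀ = u by ring, abs_of_pos h]
      linarith
    · show t₀ ≤ t₀ + u
      linarith
  nlinarith

/-- recurrence of values in the direction ς -/
theorem recur (hS : Sys F A c) {σ K ς : ℝ} (hσ : |σ| = 1) (hς : ς = 1 ∨ ς = -1) (hne : Ne c ς)
    {t₀ : ℝ} (h : K < σ * F t₀) :
    ∃ C : ℝ, ∀ T : ℝ, C ≤ T → ∃ t ∈ Icc T (T + Real.log T + C), K < σ * F (ς * t) := by
  have h1 : ¬ Fail F σ K ς := by
    intro hF
    obtain ⟨C4, hC4, hBig⟩ := big_of_fail hS hσ hς hF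
    exact absurd (le_of_big hS hς hne hC4 hBig t₀) (not_le.mpr h)
  unfold Fail at h1
  push Not at h1
  exact h1

end Pool.Agent.Helper71.MA
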