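import Pool.Agent.Helper71.MA.Sys

open Complex Filter Topology MeasureTheory Set
open Pool.Agent.Helper57.Zeta
open Pool.Agent.Helper71.MR

namespace Pool.Agent.Helper71.MA

/-- decomposition of a function into a part living on the right and a part living on the left -/
structure Dec (a1 a2 e1 : ℝ → ℝ) (A B : ℝ) : Prop where
  m1 : Measurable a1
  m2 : Measurable a2
  me : Measurable e1
  pos : 0 < A
  b1 : ∀ t, |a1 t| ≤ A * Real.exp (t / 2)
  b2 : ∀ t, |a2 t| ≤ A * (Real.exp (-t / 2) + Real.exp (-(3 * t / 4)))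
  be : ∀ t, |e1 t| ≤ B * Real.exp (-(1 / 2 * |t|))
  c1 : ∀ y, ∫ s : ℝ, (a1 (y + s) : ℂ) * (kr s : ℂ) = e1 y
  c2 : ∀ y, ∫ s : ℝ, (a2 (y + s) : ℂ) * (kr s : ℂ) = -e1 y

/-- the coefficient function -/
noncomputable def cf (e1 : ℝ → ℝ) (w : ℂ) : ℂ := ∫ s : ℝ, (e1 s : ℂ) * cexp (-(w * s))

variable {a1 a2 e1 : ℝ → ℝ} {A B : ℝ}

theorem Dec.bd1 (h : Dec a1 a2 e1 A B) (t : ℝ) : |a1 t| ≤ A * Real.exp (3 / 4 * |t|) := by
  refine (h.b1 t).trans (mul_le_mul_of_nonneg_left ?_ h.pos.le)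
  apply Real.exp_le_exp.mpr
  have := le_abs_self t
  have := abs_nonneg t
  linarith

theorem Dec.bd2 (h : Dec a1 a2 e1 A B) (t : ℝ) : |a2 t| ≤ (2 * A) * Real.exp (3 / 4 * |t|) := by
  refine (h.b2 t).trans ?_
  have e2 : Real.exp (-t / 2) ≤ Real.exp (3 / 4 * |t|) := by
    apply Real.exp_le_exp.mpr
    have := neg_abs_le t
    have := abs_nonneg t
    linarith
  have e3 : Real.exp (-(3 * t / 4)) ≤ Real.exp (3 / 4 * |t|) := by
    apply Real.exp_le_exp.mpr
    have := neg_abs_le t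
    have := abs_nonneg t
    linarith
  have h4 := mul_le_mul_of_nonneg_left (add_le_add e2 e3) h.pos.le
  linarith

theorem Dec.e_int (h : Dec a1 a2 e1 A B) {w : ℂ} (h1 : |w.re| < 1 / 2) :
    Integrable (fun s : ℝ => (e1 s : ℂ) * cexp (-(w * s))) := by
  have hB : 0 ≤ B := by
    have := (abs_nonneg _).trans (h.be 0)
    simpa using this
  refine Integrable.mono' ((integrable_exp_abs (σ := 1 / 2 - |w.re|) (by linarith)).const_mul B) ?_ ?_
  · apply Measurable.aestronglyMeasurable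
    have := h.me
    fun_prop
  · filter_upwards with s
    rw [norm_mul, norm_cexp_neg_mul, Complex.norm_real, Real.norm_eq_abs]
    calc |e1 s| * Real.exp (-(w.re * s)) ≤ (B * Real.exp (-(1 / 2 * |s|))) * Real.exp (-(w.re * s)) :=
          mul_le_mul_of_nonneg_right (h.be s) (Real.exp_pos _).le
      _ = B * Real.exp (-(1 / 2 * |s|) + -(w.re * s)) := by rw [mul_assoc, ← Real.exp_add]
      _ ≤ _ := by
          apply mul_le_mul_of_nonneg_left _ hB
          apply Real.exp_le_exp.mpr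
          have h2 : -(w.re * s) ≤ |w.re| * |s| := by
            rw [← abs_mul]; exact neg_le_abs _
          linarith

theorem Dec.zero1 (h : Dec a1 a2 e1 A B) {w : ℂ} (h1 : w.re < 1 / 2) (t : ℝ) :
    ∫ s : ℝ, (a1 (t + s) : ℂ) * Aw kr w s = ∫ v in Ioi (0:ℝ), cexp (w * v) * (e1 (t - v) : ℂ) := by
  have h' := shear (f := fun y => (a1 y : ℂ)) (A := A) (θ₁ := 1 / 2) (θ₂ := 1 / 2) (w := w)
    (by have := h.m1; fun_prop) (by
      intro y
      rw [Complex.norm_real, Real.norm_eq_abs]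
      have h2 := h.b1 y
      rw [show y / 2 = 1 / 2 * y by ring] at h2
      have := mul_pos h.pos (Real.exp_pos (1 / 2 * y))
      linarith) h1 h1 t
  rw [h']
  apply integral_congr_ae
  filter_upwards with v
  rw [h.c1]

theorem Dec.zero2 (h : Dec a1 a2 e1 A B) {w : ℂ} (hw : xi (1 / 2 + w) = 0) (h1 : -(1 / 2) < w.re) (t : ℝ) :
    ∫ s : ℝ, (a2 (t + s) : ℂ) * Aw kr w s = ∫ v in Ioi (0:ℝ), cexp (-(w * v)) * (e1 (t + v) : ℂ) := by
  have h' := shear (f := fun y => (a2 (-y) : ℂ)) (A := A) (θ₁ := 1 / 2) (θ₂ := 3 / 4) (w := -w)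
    (by have := h.m2; fun_prop) (by
      intro y
      rw [Complex.norm_real, Real.norm_eq_abs]
      have h2 := h.b2 (-y)
      rw [show -(-y) / 2 = 1 / 2 * y by ring, show -(3 * -y / 4) = 3 / 4 * y by ring] at h2
      exact h2) (by simp; linarith) (by simp; linarith) (-t)
  have e0 : ∫ s : ℝ, (a2 (t + s) : ℂ) * Aw kr w s = -∫ s : ℝ, (a2 (-(-t + s)) : ℂ) * Aw kr (-w) s := by
    rw [← integral_neg, ← integral_neg_eq_self]
    apply integral_congr_ae
    filter_upwards with s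
    rw [Aw_neg hw (-s), neg_neg, show -(-t + s) = t + -s by ring]
    ring
  rw [e0, h', ← integral_neg]
  apply integral_congr_ae
  filter_upwards with v
  have e2 : ∫ s : ℝ, (a2 (-(-t - v + s)) : ℂ) * (kr s : ℂ) = -e1 (t + v) := by
    rw [← h.c2 (t + v), ← integral_neg_eq_self]
    apply integral_congr_ae
    filter_upwards with s
    rw [kr_even, show -(-t - v + -s) = t + v + s by ring]
  rw [e2]
  have : cexp (-w * v) = cexp (-(w * v)) := by congr 1; ring
  rw [this]; ring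

theorem Dec.aw (h : Dec a1 a2 e1 A B) {w : ℂ} (hw : xi (1 / 2 + w) = 0) (t : ℝ) :
    ∫ s : ℝ, ((a1 (t + s) + a2 (t + s) : ℝ) : ℂ) * Aw kr w s = cexp (w * t) * cf e1 w := by
  obtain ⟨C, hC⟩ := dk_Aw hw
  have hi1 := ms_kernel_int hC h.m1 h.bd1 t
  have hi2 := ms_kernel_int hC h.m2 h.bd2 t
  have h1 := zero_re hw
  have h2 := abs_lt.mp h1
  have e0 : (∫ s : ℝ, ((a1 (t + s) + a2 (t + s) : ℝ) : ℂ) * Aw kr w s) =
      (∫ s : ℝ, (a1 (t + s) : ℂ) * Aw kr w s) + ∫ s : ℝ, (a2 (t + s) : ℂ) * Aw kr w s := by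
    rw [← integral_add hi1 hi2]
    apply integral_congr_ae
    filter_upwards with s
    push_cast; ring
  rw [e0, h.zero1 h2.2, h.zero2 hw h2.1]
  have hi := h.e_int h1
  have h3 := integral_add_compl (measurableSet_Ioi (a := t)) hi
  rw [compl_Ioi] at h3
  unfold cf
  rw [← h3, mul_add, add_comm]
  congr 1
  · rw [← int_shift_Ioi (fun u : ℝ => (e1 u : ℂ) * cexp (-(w * u))) t, ← integral_const_mul]
    apply integral_congr_ae
    filter_upwards with v
    have : cexp (w * t) * cexp (-(w * ((t + v : ℝ) : ℂ))) = cexp (-(w * v)) := by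
      rw [← Complex.exp_add]; congr 1; push_cast; ring
    rw [← this]; ring
  · rw [← int_shift_Iic (fun u : ℝ => (e1 u : ℂ) * cexp (-(w * u))) t, ← integral_const_mul]
    apply integral_congr_ae
    filter_upwards with v
    have : cexp (w * t) * cexp (-(w * ((t - v : ℝ) : ℂ))) = cexp (w * v) := by
      rw [← Complex.exp_add]; congr 1; push_cast; ring
    rw [← this]; ring

theorem Dec.kr0 (h : Dec a1 a2 e1 A B) (y : ℝ) :
    ∫ s : ℝ, ((a1 (y + s) + a2 (y + s) : ℝ) : ℂ) * (kr s : ℂ) = 0 := by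
  obtain ⟨C, hC⟩ := dk_kr
  have hi1 := ms_kernel_int hC h.m1 h.bd1 y
  have hi2 := ms_kernel_int hC h.m2 h.bd2 y
  have e0 : (∫ s : ℝ, ((a1 (y + s) + a2 (y + s) : ℝ) : ℂ) * (kr s : ℂ)) =
      (∫ s : ℝ, (a1 (y + s) : ℂ) * (kr s : ℂ)) + ∫ s : ℝ, (a2 (y + s) : ℂ) * (kr s : ℂ) := by
    rw [← integral_add hi1 hi2]
    apply integral_congr_ae
    filter_upwards with s
    push_cast; ring
  rw [e0, h.c1, h.c2, add_neg_cancel]

theorem Dec.sys (h : Dec a1 a2 e1 A B) (hr : ∀ t, Tendsto (fun t => a1 t + a2 t) (𝓝[≥] t) (𝓝 (a1 t + a2 t))) :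
    Sys (fun t => a1 t + a2 t) (3 * A) (cf e1) where
  meas := h.m1.add h.m2
  pos := by have := h.pos; positivity
  bd t := by
    have h1 := h.bd1 t
    have h2 := h.bd2 t
    have h3 := abs_add_le (a1 t) (a2 t)
    linarith
  kr0 := h.kr0
  aw w hw t := h.aw hw t
  right := hr

/-- combinations with shifts -/
theorem Sys.comb {F : ℝ → ℝ} {A : ℝ} {c : ℂ → ℂ} (hS : Sys F A c) {ι : Type*} (J : Finset ι) (d s : ι → ℝ) :
    ∃ A', Sys (fun t => F t + ∑ j ∈ J, d j * F (t - s j)) A'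
      (fun w => c w * (1 + ∑ j ∈ J, (d j : ℂ) * cexp (-(w * s j)))) := by
  classical
  have hA := hS.pos
  refine ⟨A + ∑ j ∈ J, |d j| * (A * Real.exp (3 / 4 * |s j|)), ?_, ?_, ?_, ?_, ?_, ?_⟩
  · have := hS.meas
    fun_prop
  · have : 0 ≤ ∑ j ∈ J, |d j| * (A * Real.exp (3 / 4 * |s j|)) :=
      Finset.sum_nonneg (fun j _ => by positivity)
    linarith
  · intro t
    refine (abs_add_le _ _).trans ?_
    rw [add_mul]
    apply add_le_add (hS.bd t)
    refine (Finset.abs_sum_le_sum_abs _ _).trans ?_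
    rw [Finset.sum_mul]
    apply Finset.sum_le_sum
    intro j _
    rw [abs_mul, mul_assoc]
    apply mul_le_mul_of_nonneg_left _ (abs_nonneg _)
    refine (hS.bd _).trans ?_
    rw [mul_assoc, ← Real.exp_add]
    apply mul_le_mul_of_nonneg_left _ hA.le
    apply Real.exp_le_exp.mpr
    have := abs_sub t (s j)
    linarith
  · intro y
    obtain ⟨C, hC⟩ := dk_kr
    have hi : ∀ z, Integrable (fun s : ℝ => (F (z + s) : ℂ) * (kr s : ℂ)) := fun z =>
      ms_kernel_int hC hS.meas hS.bd z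
    have e : ∀ x : ℝ, ((F (y + x) + ∑ j ∈ J, d j * F (y + x - s j) : ℝ) : ℂ) * (kr x : ℂ) =
        (F (y + x) : ℂ) * (kr x : ℂ) + ∑ j ∈ J, (d j : ℂ) * ((F (y - s j + x) : ℂ) * (kr x : ℂ)) := by
      intro x
      push_cast
      rw [add_mul, Finset.sum_mul]
      congr 1
      apply Finset.sum_congr rfl
      intro j _
      rw [show y + x - s j = y - s j + x by ring]; ring
    simp_rw [e]
    rw [integral_add (hi y) (integrable_finset_sum _ (fun j _ => (hi _).const_mul _)),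
      integral_finset_sum _ (fun j _ => (hi _).const_mul _), hS.kr0 y, zero_add]
    apply Finset.sum_eq_zero
    intro j _
    rw [integral_const_mul, hS.kr0, mul_zero]
  · intro w hw t
    obtain ⟨C, hC⟩ := dk_Aw hw
    have hi : ∀ z, Integrable (fun s : ℝ => (F (z + s) : ℂ) * Aw kr w s) := fun z =>
      ms_kernel_int hC hS.meas hS.bd z
    have e : ∀ x : ℝ, ((F (t + x) + ∑ j ∈ J, d j * F (t + x - s j) : ℝ) : ℂ) * Aw kr w x =
        (F (t + x) : ℂ) * Aw kr w x + ∑ j ∈ J, (d j : ℂ) * ((F (t - s j + x) : ℂ) * Aw kr w x) := by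
      intro x
      push_cast
      rw [add_mul, Finset.sum_mul]
      congr 1
      apply Finset.sum_congr rfl
      intro j _
      rw [show t + x - s j = t - s j + x by ring]; ring
    simp_rw [e]
    rw [integral_add (hi t) (integrable_finset_sum _ (fun j _ => (hi _).const_mul _)),
      integral_finset_sum _ (fun j _ => (hi _).const_mul _), hS.aw w hw t, mul_add, mul_add, mul_one]
    congr 1
    rw [Finset.mul_sum, Finset.mul_sum]
    apply Finset.sum_congr rfl
    intro j _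
    rw [integral_const_mul, hS.aw w hw]
    have : cexp (w * ((t - s j : ℝ) : ℂ)) = cexp (w * t) * cexp (-(w * s j)) := by
      rw [← Complex.exp_add]; congr 1; push_cast; ring
    rw [this]; ring
  · intro t
    apply (hS.right t).add
    apply tendsto_finset_sum
    intro j _
    apply Tendsto.const_mul
    have h1 : Tendsto (fun x => x - s j) (𝓝[≥] t) (𝓝[≥] (t - s j)) := by
      apply tendsto_nhdsWithin_of_tendsto_nhds_of_eventually_within
      · have : Tendsto (fun x => x - s j) (𝓝 t) (𝓝 (t - s j)) := by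
          apply Continuous.tendsto; fun_prop
        exact this.mono_left nhdsWithin_le_nhds
      · filter_upwards [self_mem_nhdsWithin] with x hx
        have hx' : t ≤ x := hx
        show t - s j ≤ x - s j
        linarith
    exact (hS.right (t - s j)).comp h1

/-- nonvanishing factor of a combination -/
theorem comb_ne {ι : Type*} (J : Finset ι) {d s : ι → ℝ} {w : ℂ} (hs : ∀ j ∈ J, 0 < s j)
    (hd : ∑ j ∈ J, |d j| * Real.exp (s j / 2) ≤ 1) (hw : -(1 / 2) < w.re) :
    (1 + ∑ j ∈ J, (d j : ℂ) * cexp (-(w * s j))) ≠ 0 := by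
  classical
  intro h
  have h1 : ‖∑ j ∈ J, (d j : ℂ) * cexp (-(w * s j))‖ = 1 := by
    have : ∑ j ∈ J, (d j : ℂ) * cexp (-(w * s j)) = -1 := by linear_combination h
    rw [this]; simp
  have h2 : ‖∑ j ∈ J, (d j : ℂ) * cexp (-(w * s j))‖ ≤ ∑ j ∈ J, |d j| * Real.exp (-(w.re * s j)) := by
    refine (norm_sum_le _ _).trans (le_of_eq ?_)
    apply Finset.sum_congr rfl
    intro j _
    rw [norm_mul, norm_cexp_neg_mul, Complex.norm_real, Real.norm_eq_abs]
  have h4 : ∀ j ∈ J, |d j| * Real.exp (-(w.re * s j)) ≤ |d j| * Real.exp (s j / 2) := by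
    intro j hj
    apply mul_le_mul_of_nonneg_left _ (abs_nonneg _)
    apply Real.exp_le_exp.mpr
    have := hs j hj
    nlinarith
  by_cases hz : ∀ j ∈ J, d j = 0
  · rw [Finset.sum_eq_zero (fun j hj => by rw [hz j hj]; simp)] at h1
    simp at h1
  · push Not at hz
    obtain ⟨j, hj, hj2⟩ := hz
    have h5 : ∑ j ∈ J, |d j| * Real.exp (-(w.re * s j)) < ∑ j ∈ J, |d j| * Real.exp (s j / 2) := by
      apply Finset.sum_lt_sum h4
      refine ⟨j, hj, ?_⟩
      apply mul_lt_mul_of_pos_left _ (abs_pos.mpr hj2)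
      apply Real.exp_lt_exp.mpr
      have := hs j hj
      nlinarith
    linarith

end Pool.Agent.Helper71.MA
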