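import Pool.Agent.Helper71.MR.Rh
import Pool.Agent.Helper71.MR.Main

open Complex Filter Topology MeasureTheory Set
open Pool.Agent.Helper57.Zeta
open Pool.Agent.Helper71.MR

namespace Pool.Agent.Helper71.MA

/-- a function annihilated by the theta kernel whose zero functionals are pure exponentials -/
structure Sys (F : ℝ → ℝ) (A : ℝ) (c : ℂ → ℂ) : Prop where
  meas : Measurable F
  pos : 0 < A
  bd : ∀ t, |F t| ≤ A * Real.exp (3 / 4 * |t|)
  kr0 : ∀ y, ∫ s : ℝ, (F (y + s) : ℂ) * (kr s : ℂ) = 0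
  aw : ∀ w, xi (1 / 2 + w) = 0 → ∀ t : ℝ, ∫ s : ℝ, (F (t + s) : ℂ) * Aw kr w s = cexp (w * t) * c w
  right : ∀ t, Tendsto F (𝓝[≥] t) (𝓝 (F t))

/-- smoothed function -/
noncomputable def sm (F : ℝ → ℝ) (δ y : ℝ) : ℝ := ∫ u : ℝ, F (y + u) * gt δ u

variable {F : ℝ → ℝ} {A : ℝ} {c : ℂ → ℂ}

theorem fub (hS : Sys F A c) {δ : ℝ} (hδ : δ ≤ 1) {φ : ℝ → ℂ} {C : ℝ} (hφ : Dk φ C) (y : ℝ) :
    ∫ s : ℝ, (sm F δ (y + s) : ℂ) * φ s = ∫ u : ℝ, (gt δ u : ℂ) * ∫ s : ℝ, (F (y + u + s) : ℂ) * φ s := by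
  have hC := hφ.nonneg
  have hA := hS.pos
  have hint : Integrable (Function.uncurry fun s u : ℝ => (F (y + s + u) : ℂ) * (gt δ u : ℂ) * φ s)
      (volume.prod volume) := by
    have h1 : Integrable (fun p : ℝ × ℝ => (A * Real.exp (3 / 4 * |y|) * C * Real.exp 2 * Real.exp (-(1 * |p.1|))) *
        Real.exp (-(1 * |p.2|))) (volume.prod volume) :=
      Integrable.mul_prod (f := fun s : ℝ => A * Real.exp (3 / 4 * |y|) * C * Real.exp 2 * Real.exp (-(1 * |s|)))
        (g := fun u : ℝ => Real.exp (-(1 * |u|)))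
        ((integrable_exp_abs one_pos).const_mul _) (integrable_exp_abs one_pos)
    refine Integrable.mono' h1 ?_ ?_
    · apply Measurable.aestronglyMeasurable
      simp only [Function.uncurry_def]
      have := hS.meas
      have := hφ.meas
      have := (gt_cont δ).measurable
      fun_prop
    · filter_upwards with p
      simp only [Function.uncurry_def]
      rw [norm_mul, norm_mul, Complex.norm_real, Complex.norm_real, Real.norm_eq_abs, Real.norm_eq_abs,
        abs_of_nonneg (gt_nonneg _ _)]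
      calc |F (y + p.1 + p.2)| * gt δ p.2 * ‖φ p.1‖
          ≤ (A * Real.exp (3 / 4 * |y + p.1 + p.2|)) * (Real.exp 2 * Real.exp (-(2 * |p.2|))) *
            (C * Real.exp (-(2 * |p.1|))) := by
            apply mul_le_mul _ (hφ.exp_bd _) (norm_nonneg _) (by positivity)
            exact mul_le_mul (hS.bd _) (gt_exp hδ _) (gt_nonneg _ _) (by positivity)
        _ = A * C * Real.exp 2 * Real.exp (3 / 4 * |y + p.1 + p.2| + -(2 * |p.2|) + -(2 * |p.1|)) := by
            rw [Real.exp_add, Real.exp_add]; ring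
        _ ≤ A * C * Real.exp 2 * Real.exp (3 / 4 * |y| + -(1 * |p.1|) + -(1 * |p.2|)) := by
            apply mul_le_mul_of_nonneg_left _ (by positivity)
            apply Real.exp_le_exp.mpr
            have h2 := abs_add_le (y + p.1) p.2
            have h3 := abs_add_le y p.1
            linarith [abs_nonneg p.1, abs_nonneg p.2]
        _ = _ := by rw [Real.exp_add, Real.exp_add]; ring
  calc ∫ s : ℝ, (sm F δ (y + s) : ℂ) * φ s
      = ∫ s : ℝ, ∫ u : ℝ, (F (y + s + u) : ℂ) * (gt δ u : ℂ) * φ s := by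
        apply integral_congr_ae
        filter_upwards with s
        unfold sm
        rw [integral_mul_const, ← integral_complex_ofReal]
        congr 1
        apply integral_congr_ae
        filter_upwards with u
        push_cast; rfl
    _ = ∫ u : ℝ, ∫ s : ℝ, (F (y + s + u) : ℂ) * (gt δ u : ℂ) * φ s := integral_integral_swap hint
    _ = _ := by
        apply integral_congr_ae
        filter_upwards with u
        rw [← integral_const_mul]
        apply integral_congr_ae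
        filter_upwards with s
        rw [show y + s + u = y + u + s by ring]
        ring

theorem sm_kr (hS : Sys F A c) {δ : ℝ} (hδ : δ ≤ 1) (y : ℝ) : ∫ s : ℝ, (sm F δ (y + s) : ℂ) * (kr s : ℂ) = 0 := by
  obtain ⟨C, hC⟩ := dk_kr
  rw [fub hS hδ hC]
  simp_rw [hS.kr0]
  simp

theorem sm_Aw (hS : Sys F A c) {δ : ℝ} (hδ : δ ≤ 1) {w : ℂ} (hw : xi (1 / 2 + w) = 0) (y : ℝ) :
    ∫ s : ℝ, (sm F δ (y + s) : ℂ) * Aw kr w s =
      cexp (w * y) * (c w * ∫ u : ℝ, (gt δ u : ℂ) * cexp (w * u)) := by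
  obtain ⟨C, hC⟩ := dk_Aw hw
  rw [fub hS hδ hC]
  simp_rw [hS.aw w hw]
  rw [← integral_const_mul, ← integral_const_mul]
  apply integral_congr_ae
  filter_upwards with u
  have : cexp (w * ((y + u : ℝ) : ℂ)) = cexp (w * y) * cexp (w * u) := by
    rw [← Complex.exp_add]; congr 1; push_cast; ring
  rw [this]; ring

theorem kr_real (hS : Sys F A c) (y : ℝ) : ∫ s : ℝ, F (y + s) * kr s = 0 := by
  have h := hS.kr0 y
  have h2 : ∫ s : ℝ, ((F (y + s) * kr s : ℝ) : ℂ) = 0 := by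
    rw [← h]
    apply integral_congr_ae
    filter_upwards with s
    push_cast; rfl
  rw [integral_complex_ofReal] at h2
  exact_mod_cast h2

theorem abs_kr_int (hS : Sys F A c) (y : ℝ) : Integrable (fun s : ℝ => F (y + s) * kr s) := by
  obtain ⟨C, hC⟩ := dk_kr
  have h := (ms_kernel_int hC hS.meas hS.bd y).re
  refine h.congr ?_
  filter_upwards with s
  simp

/-- W1 -/
theorem L1 (hS : Sys F A c) {σ : ℝ} (hσ : |σ| = 1) : ∃ C5 : ℝ, 0 ≤ C5 ∧ ∀ K1 s b : ℝ, 0 ≤ K1 →
      3 / 4 * |s| ≤ Real.exp (2 * b) → (∀ t ∈ Icc (s - b) (s + b), σ * F t ≤ K1) →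
      ∫ v : ℝ, |F (s + v)| * kr v ≤ 2 * K1 * κ0 + C5 := by
  obtain ⟨C5, hC5, h⟩ := plus_bd (f := fun t => σ * F t) (hS.meas.const_mul σ) (B := A) (by
    intro t
    rw [abs_mul, hσ, one_mul]
    exact hS.bd t)
  refine ⟨2 * C5, by positivity, ?_⟩
  intro K1 s b hK1 hb hle
  obtain ⟨hi, hb⟩ := h K1 s b hK1 hb hle
  have e1 : ∀ v : ℝ, |F (s + v)| * kr v = 2 * (max (σ * F (s + v)) 0 * kr v) - σ * (F (s + v) * kr v) := by
    intro v
    have h2 : |F (s + v)| = |σ * F (s + v)| := by rw [abs_mul, hσ, one_mul]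
    have h3 : |σ * F (s + v)| = 2 * max (σ * F (s + v)) 0 - σ * F (s + v) := by
      rcases le_total 0 (σ * F (s + v)) with h4 | h4
      · rw [abs_of_nonneg h4, max_eq_left h4]; ring
      · rw [abs_of_nonpos h4, max_eq_right h4]; ring
    rw [h2, h3]; ring
  simp_rw [e1]
  rw [integral_sub (hi.const_mul 2) ((abs_kr_int hS s).const_mul σ), integral_const_mul, integral_const_mul,
    kr_real hS]
  linarith

theorem wt_int (hS : Sys F A c) (τ : ℝ) : Integrable (fun v : ℝ => |F (τ + v)| * wt v) := by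
  have hA := hS.pos
  have hI : Integrable (fun v : ℝ => (A * Real.exp (3 / 4 * |τ|) * Real.exp 5) * Real.exp (-(1 * |v|))) :=
    (integrable_exp_abs one_pos).const_mul _
  refine Integrable.mono' hI ?_ ?_
  · apply Measurable.aestronglyMeasurable
    have := hS.meas
    have := wt_cont.measurable
    fun_prop
  · filter_upwards with v
    rw [Real.norm_of_nonneg (mul_nonneg (abs_nonneg _) (wt_pos _).le)]
    calc |F (τ + v)| * wt v ≤ (A * Real.exp (3 / 4 * |τ + v|)) * wt v :=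
          mul_le_mul_of_nonneg_right (hS.bd _) (wt_pos _).le
      _ = A * Real.exp (3 / 4 * |τ + v| + -(Real.exp (2 * |v|) / 10)) := by
          unfold wt; rw [Real.exp_add]; ring
      _ ≤ A * Real.exp (3 / 4 * |τ| + 5 + -(1 * |v|)) := by
          apply mul_le_mul_of_nonneg_left _ hA.le
          apply Real.exp_le_exp.mpr
          have h1 := abs_add_le τ v
          have h2 := exp_two_ge v
          have h3 := abs_nonneg v
          have h4 : (2 * |v|) ^ 3 / 6 ≤ Real.exp (2 * |v|) := by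
            have := Real.pow_div_factorial_le_exp (2 * |v|) (by positivity) 3
            norm_num [Nat.factorial] at this ⊢
            linarith
          have h5 : 7 / 4 * |v| ≤ 5 + Real.exp (2 * |v|) / 10 := by
            have h6 : 7 / 4 * |v| ≤ 5 + ((2 * |v|) ^ 3 / 6) / 10 := by
              have h7 : 0 ≤ (|v| - 21 / 10) ^ 2 * (|v| + 42 / 10) := by positivity
              nlinarith
            linarith
          linarith
      _ = _ := by rw [Real.exp_add, Real.exp_add]; ring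

/-- W2 -/
theorem wt_bd (hS : Sys F A c) {σ : ℝ} (hσ : |σ| = 1) : ∃ C6 : ℝ, 0 ≤ C6 ∧ ∀ K1 τ b : ℝ, 0 ≤ K1 →
      3 / 4 * (|τ| + 2) ≤ Real.exp (2 * b) → (∀ t ∈ Icc (τ - 2 - b) (τ + 2 + b), σ * F t ≤ K1) →
      ∫ v : ℝ, |F (τ + v)| * wt v ≤ C6 * (K1 + 1) := by
  obtain ⟨C5, hC5, h⟩ := L1 hS hσ
  have hκ := κ0_nonneg
  have hE := Real.exp_pos (Real.pi * Real.exp 4)
  refine ⟨Real.exp (Real.pi * Real.exp 4) * (4 * κ0 + 2 * C5), by positivity, ?_⟩
  intro K1 τ b hK1 hb hle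
  have hp2 : |τ + 2| ≤ |τ| + 2 := by
    have := abs_add_le τ 2
    rwa [abs_of_pos (by norm_num : (0:ℝ) < 2)] at this
  have hm2 : |τ - 2| ≤ |τ| + 2 := by
    have := abs_sub τ 2
    rwa [abs_of_pos (by norm_num : (0:ℝ) < 2)] at this
  have h1 := h K1 (τ + 2) b hK1 (by linarith) (fun t ht => hle t ⟨by linarith [ht.1], by linarith [ht.2]⟩)
  have h2 := h K1 (τ - 2) b hK1 (by linarith) (fun t ht => hle t ⟨by linarith [ht.1], by linarith [ht.2]⟩)
  have i1 : Integrable (fun v : ℝ => |F (τ + 2 + v)| * kr v) := by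
    refine (abs_kr_int hS (τ + 2)).norm.congr ?_
    filter_upwards with v
    rw [norm_mul, Real.norm_eq_abs, Real.norm_of_nonneg (kr_pos v).le]
  have i2 : Integrable (fun v : ℝ => |F (τ - 2 + v)| * kr v) := by
    refine (abs_kr_int hS (τ - 2)).norm.congr ?_
    filter_upwards with v
    rw [norm_mul, Real.norm_eq_abs, Real.norm_of_nonneg (kr_pos v).le]
  have j1 : Integrable (fun v : ℝ => |F (τ + v)| * kr (v - 2)) := by
    have := i1.comp_sub_right 2
    refine this.congr ?_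
    filter_upwards with v
    rw [show τ + 2 + (v - 2) = τ + v by ring]
  have j2 : Integrable (fun v : ℝ => |F (τ + v)| * kr (v + 2)) := by
    have := i2.comp_add_right 2
    refine this.congr ?_
    filter_upwards with v
    rw [show τ - 2 + (v + 2) = τ + v by ring]
  have k1 : ∫ v : ℝ, |F (τ + v)| * kr (v - 2) = ∫ v : ℝ, |F (τ + 2 + v)| * kr v := by
    rw [← integral_sub_right_eq_self (fun v : ℝ => |F (τ + 2 + v)| * kr v) 2]
    apply integral_congr_ae
    filter_upwards with v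
    rw [show τ + 2 + (v - 2) = τ + v by ring]
  have k2 : ∫ v : ℝ, |F (τ + v)| * kr (v + 2) = ∫ v : ℝ, |F (τ - 2 + v)| * kr v := by
    rw [← integral_add_right_eq_self (fun v : ℝ => |F (τ - 2 + v)| * kr v) 2]
    apply integral_congr_ae
    filter_upwards with v
    rw [show τ - 2 + (v + 2) = τ + v by ring]
  calc ∫ v : ℝ, |F (τ + v)| * wt v
      ≤ ∫ v : ℝ, Real.exp (Real.pi * Real.exp 4) * (|F (τ + v)| * kr (v - 2) + |F (τ + v)| * kr (v + 2)) := by
        apply integral_mono (wt_int hS τ) ((j1.add j2).const_mul _)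
        intro v
        have h3 := mul_le_mul_of_nonneg_left (wt_le v) (abs_nonneg (F (τ + v)))
        show |F (τ + v)| * wt v ≤ Real.exp (Real.pi * Real.exp 4) *
          (|F (τ + v)| * kr (v - 2) + |F (τ + v)| * kr (v + 2))
        linarith
    _ = Real.exp (Real.pi * Real.exp 4) * ((∫ v : ℝ, |F (τ + 2 + v)| * kr v) + ∫ v : ℝ, |F (τ - 2 + v)| * kr v) := by
        rw [integral_const_mul, integral_add j1 j2, k1, k2]
    _ ≤ Real.exp (Real.pi * Real.exp 4) * ((4 * κ0 + 2 * C5) * (K1 + 1)) := by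
        apply mul_le_mul_of_nonneg_left _ hE.le
        nlinarith [mul_nonneg hC5 hK1]
    _ = _ := by ring

/-- arbitrarily long and remote good intervals, in the direction ς = ±1 -/
def Big (F : ℝ → ℝ) (σ K C4 ς : ℝ) : Prop := ∀ L T0 : ℝ, ∃ p : ℝ, ∀ τ ∈ Icc p (p + L),
  T0 ≤ ς * τ ∧ σ * F τ ≤ K ∧ ∫ v : ℝ, |F (τ + v)| * wt v ≤ C4

/-- negation of recurrence in the direction ς -/
def Fail (F : ℝ → ℝ) (σ K ς : ℝ) : Prop := ∀ C : ℝ, ∃ T : ℝ, C ≤ T ∧
  ∀ t ∈ Icc T (T + Real.log T + C), σ * F (ς * t) ≤ K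

theorem big_of_fail (hS : Sys F A c) {σ K ς : ℝ} (hσ : |σ| = 1) (hς : ς = 1 ∨ ς = -1) (hF : Fail F σ K ς) :
    ∃ C4 : ℝ, 0 ≤ C4 ∧ Big F σ K C4 ς := by
  obtain ⟨C6, hC6, h6⟩ := wt_bd hS hσ
  set K1 : ℝ := max K 0 with hK1
  have hK1n : 0 ≤ K1 := le_max_right K 0
  have hKK : K ≤ K1 := le_max_left K 0
  refine ⟨C6 * (K1 + 1), by positivity, ?_⟩
  intro L' T0
  wlog hL : 0 ≤ L' generalizing L'
  · obtain ⟨p, hp2⟩ := this 0 le_rfl
    refine ⟨p, fun τ hτ => hp2 τ ⟨hτ.1, by linarith [hτ.2]⟩⟩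
  set C : ℝ := max (L' + 5) T0 with hCdef
  obtain ⟨T, hT, hTle⟩ := hF C
  have hC1 : L' + 5 ≤ C := le_max_left _ _
  have hC2 : T0 ≤ C := le_max_right _ _
  rcases hς with rfl | rfl
  · refine ⟨T + Real.log T / 2 + 5 / 2, ?_⟩
    intro τ hτ
    obtain ⟨g1, g2, g3, g4, g5⟩ := window_geom hL hC1 hC2 hT hτ
    refine ⟨by linarith, ?_, ?_⟩
    · have e1 := hTle τ (g5 τ ⟨by linarith, by linarith⟩)
      rwa [one_mul] at e1
    · apply h6 K1 τ (Real.log T / 2 + 1 / 2) hK1n
      · rw [abs_of_nonneg g2]; exact g3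
      · intro t ht
        have e1 := hTle t (g5 t ht)
        rw [one_mul] at e1
        linarith
  · refine ⟨-(T + Real.log T / 2 + 5 / 2 + L'), ?_⟩
    intro τ hτ
    obtain ⟨g1, g2, g3, g4, g5⟩ := window_geom (τ := -τ) hL hC1 hC2 hT ⟨by linarith [hτ.2], by linarith [hτ.1]⟩
    have g2' : τ ≤ 0 := by linarith
    refine ⟨by linarith, ?_, ?_⟩
    · have e1 := hTle (-τ) (g5 (-τ) ⟨by linarith, by linarith⟩)
      rwa [show (-1 : ℝ) * -τ = τ by ring] at e1
    · apply h6 K1 τ (Real.log T / 2 + 1 / 2) hK1n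
      · rw [abs_of_nonpos g2']; exact g3
      · intro t ht
        have e1 := hTle (-t) (g5 (-t) ⟨by linarith [ht.2], by linarith [ht.1]⟩)
        rw [show (-1 : ℝ) * -t = t by ring] at e1
        linarith

theorem sm_shift (F : ℝ → ℝ) (δ y t : ℝ) : sm F δ (y + t) = ∫ v : ℝ, F (y + v) * gt δ (v - t) := by
  unfold sm
  rw [← integral_sub_right_eq_self (fun u : ℝ => F (y + t + u) * gt δ u) t]
  apply integral_congr_ae
  filter_upwards with v
  rw [show y + t + (v - t) = y + v by ring]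

theorem gt_int (hS : Sys F A c) {δ : ℝ} (hδ : δ ≤ 1) (y t : ℝ) : Integrable (fun v : ℝ => F (y + v) * gt δ (v - t)) := by
  refine Integrable.mono' ((wt_int hS y).const_mul (Real.exp (Real.exp (2 * (|t| + 1)) / 10))) ?_ ?_
  · apply Measurable.aestronglyMeasurable
    have := hS.meas
    have := (gt_cont δ).measurable
    fun_prop
  · filter_upwards with v
    rw [norm_mul, Real.norm_eq_abs, Real.norm_of_nonneg (gt_nonneg _ _)]
    have h1 := gt_wt hδ (le_refl |t|) v
    have h2 := mul_le_mul_of_nonneg_left h1 (abs_nonneg (F (y + v)))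
    linarith

theorem sm_bd_wt (hS : Sys F A c) {δ : ℝ} (hδ : δ ≤ 1) {t R : ℝ} (ht : |t| ≤ R) (y : ℝ) :
    |sm F δ (y + t)| ≤ Real.exp (Real.exp (2 * (R + 1)) / 10) * ∫ v : ℝ, |F (y + v)| * wt v := by
  rw [sm_shift, ← Real.norm_eq_abs, ← integral_const_mul]
  apply norm_integral_le_of_norm_le ((wt_int hS y).const_mul _)
  filter_upwards with v
  rw [norm_mul, Real.norm_eq_abs, Real.norm_of_nonneg (gt_nonneg _ _)]
  have h2 := mul_le_mul_of_nonneg_left (gt_wt hδ ht v) (abs_nonneg (F (y + v)))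
  linarith

theorem sm_lip_wt (hS : Sys F A c) {δ : ℝ} (hδ : δ ≤ 1) {t t' R : ℝ} (ht : |t| ≤ R) (ht' : |t'| ≤ R) (y : ℝ) :
    |sm F δ (y + t) - sm F δ (y + t')| ≤
      |t - t'| * (Real.exp (Real.exp (2 * (R + 1)) / 10) * ∫ v : ℝ, |F (y + v)| * wt v) := by
  rw [sm_shift, sm_shift, ← integral_sub (gt_int hS hδ y t) (gt_int hS hδ y t'), ← Real.norm_eq_abs,
    ← integral_const_mul, ← integral_const_mul]
  apply norm_integral_le_of_norm_le (((wt_int hS y).const_mul _).const_mul _)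
  filter_upwards with v
  rw [← mul_sub, norm_mul, Real.norm_eq_abs, Real.norm_eq_abs]
  have h2 := mul_le_mul_of_nonneg_left (gt_lip_wt hδ ht ht' v) (abs_nonneg (F (y + v)))
  linarith

theorem sm_cont (hS : Sys F A c) {δ : ℝ} (hδ : δ ≤ 1) : Continuous (sm F δ) := by
  rw [continuous_iff_continuousAt]
  intro t₀
  set M : ℝ := Real.exp (Real.exp (2 * (1 + 1)) / 10) * ∫ v : ℝ, |F (t₀ + v)| * wt v with hM
  rw [Metric.continuousAt_iff]
  intro ε hε
  have hM0 : 0 ≤ M := mul_nonneg (Real.exp_pos _).le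
    (integral_nonneg (fun v => mul_nonneg (abs_nonneg _) (wt_pos _).le))
  refine ⟨min 1 (ε / (M + 1)), by positivity, ?_⟩
  intro x hx
  rw [Real.dist_eq] at hx ⊢
  have h1 := sm_lip_wt hS hδ (t := x - t₀) (t' := 0) (R := 1) ((hx.trans_le (min_le_left _ _)).le) (by simp) t₀
  rw [add_zero, show t₀ + (x - t₀) = x by ring, sub_zero, ← hM] at h1
  refine h1.trans_lt ?_
  have h2 := hx.trans_le (min_le_right 1 (ε / (M + 1)))
  rw [lt_div_iff₀ (by positivity)] at h2
  have h3 : |x - t₀| * M ≤ |x - t₀| * (M + 1) := mul_le_mul_of_nonneg_left (by linarith) (abs_nonneg _)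
  linarith

theorem sm_gr (hS : Sys F A c) {δ : ℝ} (hδ : δ ≤ 1) : ∃ A', Gr (sm F δ) A' (3 / 4) := by
  have hA := hS.pos
  refine ⟨A * Real.exp 2 * ∫ u : ℝ, Real.exp (-(1 * |u|)), sm_cont hS hδ, ?_⟩
  intro t
  have h1 : |sm F δ t| ≤ ∫ u : ℝ, (A * Real.exp 2 * Real.exp (3 / 4 * |t|)) * Real.exp (-(1 * |u|)) := by
    unfold sm
    rw [← Real.norm_eq_abs]
    apply norm_integral_le_of_norm_le ((integrable_exp_abs one_pos).const_mul _)
    filter_upwards with u
    rw [norm_mul, Real.norm_eq_abs, Real.norm_of_nonneg (gt_nonneg _ _)]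
    calc |F (t + u)| * gt δ u ≤ (A * Real.exp (3 / 4 * |t + u|)) * (Real.exp 2 * Real.exp (-(2 * |u|))) :=
          mul_le_mul (hS.bd _) (gt_exp hδ _) (gt_nonneg _ _) (by positivity)
      _ = A * Real.exp 2 * Real.exp (3 / 4 * |t + u| + -(2 * |u|)) := by rw [Real.exp_add]; ring
      _ ≤ A * Real.exp 2 * Real.exp (3 / 4 * |t| + -(1 * |u|)) := by
          apply mul_le_mul_of_nonneg_left _ (by positivity)
          apply Real.exp_le_exp.mpr
          have := abs_add_le t u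
          linarith [abs_nonneg u]
      _ = _ := by rw [Real.exp_add]; ring
  refine h1.trans (le_of_eq ?_)
  rw [integral_const_mul]; ring

/-- dominated convergence along translates -/
theorem trans_lim (hS : Sys F A c) {δ : ℝ} (hδ : δ ≤ 1) {C4 : ℝ} (hC4 : 0 ≤ C4) {τ : ℕ → ℝ}
    (h2 : ∀ n : ℕ, ∀ t : ℝ, |t| ≤ n → ∫ v : ℝ, |F (τ n + t + v)| * wt v ≤ C4)
    {G : ℝ → ℝ} {φ : ℕ → ℕ} (hφ : StrictMono φ)
    (hG : ∀ t, Tendsto (fun n => sm F δ (τ (φ n) + t)) atTop (𝓝 (G t)))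
    {κ : ℝ → ℂ} {C : ℝ} (hκ : Dk κ C) (t : ℝ) :
    Tendsto (fun n => ∫ s : ℝ, (sm F δ (τ (φ n) + (t + s)) : ℂ) * κ s) atTop
      (𝓝 (∫ s : ℝ, (G (t + s) : ℂ) * κ s)) := by
  have hC := hκ.nonneg
  apply tendsto_integral_filter_of_dominated_convergence (fun s => C4 * C * Real.exp (-(1 * |s|)))
  · apply Eventually.of_forall
    intro n
    apply Measurable.aestronglyMeasurable
    have := (sm_cont hS hδ).measurable
    have := hκ.meas
    fun_prop
  · obtain ⟨N, hN⟩ := exists_nat_ge |t|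
    filter_upwards [eventually_ge_atTop N] with n hn
    filter_upwards with s
    have h1 : |t| ≤ (φ n : ℝ) := hN.trans (by exact_mod_cast hn.trans (hφ.id_le n))
    have h3 := sm_bd_wt hS hδ (le_refl |s|) (τ (φ n) + t)
    rw [show τ (φ n) + t + s = τ (φ n) + (t + s) by ring] at h3
    have h4 := h3.trans (mul_le_mul_of_nonneg_left (h2 _ t h1) (Real.exp_pos _).le)
    rw [norm_mul, Complex.norm_real, Real.norm_eq_abs]
    calc |sm F δ (τ (φ n) + (t + s))| * ‖κ s‖
        ≤ (Real.exp (Real.exp (2 * (|s| + 1)) / 10) * C4) * (C * Real.exp (-(2 * Real.exp (2 * |s|)))) :=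
          mul_le_mul h4 (hκ.bd s) (norm_nonneg _) (by positivity)
      _ = C4 * C * (Real.exp (Real.exp (2 * (|s| + 1)) / 10) * Real.exp (-(2 * Real.exp (2 * |s|)))) := by ring
      _ ≤ _ := mul_le_mul_of_nonneg_left (dom_exp s) (by positivity)
  · exact (integrable_exp_abs one_pos).const_mul _
  · filter_upwards with s
    apply Tendsto.mul_const
    exact (Complex.continuous_ofReal.tendsto _).comp (hG (t + s))

end Pool.Agent.Helper71.MA
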